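import Pool.Agent.Q268.MQ.IQ1
import Pool.Agent.Q268.MQ.IL1
import Pool.Agent.Q268.MQ.IL2
import Pool.Agent.Q268.MQ.IQ2
import Pool.Agent.Q268.MQ.PAR
import Pool.Agent.Q268.MQ.EE
import Pool.Agent.Q268.MQ.Contr
import Pool.Agent.Q268.MQ.LIP
import Pool.Agent.Q268.MQ.PHI
import Pool.Agent.Q268.MQ.COEF
import Pool.Agent.Q268.MQ.TAUB
import Pool.Agent.Q268.MQ.BOR
import Pool.Agent.Q268.MQ.QM
import Pool.Agent.Q268.MQ.INV
import Pool.Agent.Q268.MQ.FIN

set_option autoImplicit false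

/-! MP_07db0e_nt, Q1: the power series `Λ(t) = ∑ Q_n'(-1) t^n / n!` has infinite radius of
convergence and `∫_0^∞ Λ(t) e^(-t) dt = ∫_0^1 x² d?(x)`.

Idea of the proof: for `|s - 1/2| ≤ 1/2` let `A x = s x/(1 + s x)`, `B x = 1/(1 + s x)` and
`(L f)(x) = (f(A x) + f(B x))/2`.  The limit `φ(s)` of `(L^N x²)(0)` exists for all `s` in the closed
disc with diameter `[0,1]`, is holomorphic inside the disc, continuous on the closed disc, Hölder
continuous at `s = 1` (a parabola type region `Re ≥ -22/45` for the continued fractions generated by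
`A` and `B`, and a hyperbolic contraction there), `φ(1)` is the second moment of `?`, and near `s = 0`
one has `φ(s) = ∑ Q_n'(-1) s^n`.  The Laplace transform of `Λ(t) e^(-t)` at `v` is
`φ(1/(1+v))/(1+v)` and a Tauberian argument gives the result. -/

namespace Pool.Agent.Results.MP_07db0e_nt.BorelSecondMoment

open Pool.Agent.Q268.MQ
open Filter Topology MeasureTheory

theorem result :
    (∃ F : StieltjesFunction ℝ, (∀ x : ℝ, x < 0 → F x = 0) ∧
      (∀ x : ℝ, 0 ≤ x → x ≤ 1 → F x = qm x) ∧ (∀ x : ℝ, 1 < x → F x = 1)) ∧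
    (∀ t : ℂ, Summable (fun n : ℕ => cQ n / (n.factorial : ℂ) * t ^ n)) ∧
    ∀ F : StieltjesFunction ℝ, (∀ x : ℝ, x < 0 → F x = 0) →
      (∀ x : ℝ, 0 ≤ x → x ≤ 1 → F x = qm x) → (∀ x : ℝ, 1 < x → F x = 1) →
      Tendsto (fun T : ℝ => ∫ t in (0 : ℝ)..T, Lam t * Complex.exp (-(t : ℂ))) atTop
        (𝓝 ((∫ x in Set.Icc (0 : ℝ) 1, x ^ 2 ∂F.measure : ℝ) : ℂ)) := by
  have hPAR : S_PAR := t_PAR t_Q1 t_L1 t_L2 t_Q2
  have hEE : S_EE := t_EE hPAR
  have hCON : S_CON := t_CON hPAR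
  have hPHI : S_PHI := t_PHI hEE hCON (t_LIP hEE) (t_DIF hEE) t_SM
  have hCOEF : S_COEF := t_COEF (t_MOM t_SM hPHI) hPHI t_QD
  have hINV : S_INV := t_INV t_QM
  have hFIN : S_FIN := t_FIN hCON hPHI hINV
  have hphi := hPHI
  obtain ⟨-, hd, hc, hh, -⟩ := hphi
  obtain ⟨hsum, hlim⟩ := t_BOR t_TAUB (Mo 2) cQ hCOEF.1 hCOEF.2 hd hc hh
  obtain ⟨F₀, g0, gq, g1, gc⟩ := t_ST t_QM
  refine ⟨⟨F₀, g0, gq, g1⟩, hsum, ?_⟩
  intro F hF0 hFq hF1
  have hfun : (F : ℝ → ℝ) = F₀ := by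
    funext x
    rcases lt_or_ge x 0 with h | h
    · rw [hF0 x h, g0 x h]
    rcases le_or_gt x 1 with h' | h'
    · rw [hFq x h h', gq x h h']
    · rw [hF1 x h', g1 x h']
  have hFc : Continuous F := by rw [hfun]; exact gc
  rw [hFIN F hF0 hFq hF1 hFc]
  exact hlim

end Pool.Agent.Results.MP_07db0e_nt.BorelSecondMoment
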